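import Pool.Agent.Y641.RS.Core

/-!
The parities of the left ends of the reversals alternate.
-/

set_option autoImplicit false

namespace Pool.Agent.Y641.RS

open Equiv

namespace Sq

variable {n : ℕ} (S : Sq n n)

/-- the colour of a reversal of even length -/
def co (t : ℕ) : ℕ := ((S.P t).val + 1) % 2

/-- the later reversals of colour `i` and the earlier ones of the other colour -/
def St (i t : ℕ) (s : Fin n) : Prop := (t ≤ s.val ∧ S.co s.val = i) ∨ (s.val < t ∧ S.co s.val ≠ i)

theorem vanish (hn : n % 2 = 1) (h1 : 1 ≤ n)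
    (hev : ∀ t, t < n → (S.P t).val % 2 = (S.Q t).val % 2) {i t : ℕ} (hi : i < 2) (ht : t ≤ n)
    {f : Ps n → ℚ} (hf0 : ∀ z, ka z ≠ i → f z = 0)
    (hf1 : ∀ s, t ≤ s → s < n → S.co s = i → f (S.a s) = f (S.b s) ∧ f (S.c s) = f (S.d s))
    (hf2 : ∀ s, s < t → S.co s ≠ i →
      f (io (S.a s)) = f (io (S.b s)) ∧ f (io (S.c s)) = f (io (S.d s)))
    (hf3 : f (S.E t (⟨i, by omega⟩, false)) = 0) (hf4 : f (S.E t (⟨1 - i, by omega⟩, true)) = 0) :
    f = 0 := by
  have hka : ∀ s, s < n → ka (S.a s) = S.co s ∧ ka (S.b s) = S.co s ∧ ka (S.c s) = S.co s ∧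
      ka (S.d s) = S.co s := by
    intro s hs
    have hp : ∀ s', s' < s → (S.P s').val % 2 = (S.Q s').val % 2 := fun s' h => hev s' (by omega)
    have h2 := hev s hs
    refine ⟨S.ka_a hn hs hp, ?_, ?_, S.ka_d hn hs hp⟩
    · rw [S.ka_b hn hs hp]
      unfold co
      omega
    · rw [S.ka_c hn hs hp]
      unfold co
      omega
  -- later reversals do not change `f`
  have hlate : ∀ s, t ≤ s → s < n → ∀ z, f (S.al (s + 1) z) = f (S.al s z) := by
    intro s hs1 hs2 z
    rw [S.al_succ hs2]
    obtain ⟨k1, k2, k3, k4⟩ := hka s hs2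
    by_cases hc : S.co s = i
    · obtain ⟨e1, e2⟩ := hf1 s hs1 hs2 hc
      rw [swap_inv e1, swap_inv e2]
    · have e1 : f (S.a s) = f (S.b s) := by
        rw [hf0 _ (by rw [k1]; exact hc), hf0 _ (by rw [k2]; exact hc)]
      have e2 : f (S.c s) = f (S.d s) := by
        rw [hf0 _ (by rw [k3]; exact hc), hf0 _ (by rw [k4]; exact hc)]
      rw [swap_inv e1, swap_inv e2]
  have hlate2 : ∀ j, t + j ≤ n → ∀ z, f (S.al (t + j) z) = f (S.al t z) := by
    intro j
    induction j with
    | zero => exact fun _ _ => rfl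
    | succ j ih =>
      intro hj z
      rw [show t + (j + 1) = t + j + 1 from rfl, hlate (t + j) (by omega) (by omega) z,
        ih (by omega) z]
  have hA : ∀ z, f (S.al t z) = f (io z) := by
    intro z
    have h2 := hlate2 (n - t) (by omega) z
    rw [show t + (n - t) = n by omega] at h2
    rw [← h2, al_apply, S.Ek]
    rfl
  -- earlier reversals
  have hearly : ∀ s, s < t → ∀ z, f (io (S.al (s + 1) z)) = f (io (S.al s z)) := by
    intro s hs z
    have hs2 : s < n := by omega
    rw [S.al_succ hs2]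
    obtain ⟨k1, k2, k3, k4⟩ := hka s hs2
    have hio : ∀ z, ka z = i → f (io z) = 0 := fun z hz => hf0 _ (by
      have := ka_io hn z
      rw [hz] at this
      exact this)
    by_cases hc : S.co s = i
    · have e1 : f (io (S.a s)) = f (io (S.b s)) := by
        rw [hio _ (by rw [k1]; exact hc), hio _ (by rw [k2]; exact hc)]
      have e2 : f (io (S.c s)) = f (io (S.d s)) := by
        rw [hio _ (by rw [k3]; exact hc), hio _ (by rw [k4]; exact hc)]
      rw [swap_inv (f := fun w => f (io w)) e1, swap_inv (f := fun w => f (io w)) e2]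
    · obtain ⟨e1, e2⟩ := hf2 s hs hc
      rw [swap_inv (f := fun w => f (io w)) e1, swap_inv (f := fun w => f (io w)) e2]
  have hearly2 : ∀ j, j ≤ t → ∀ z, f (io (S.al j z)) = f (io (S.al 0 z)) := by
    intro j
    induction j with
    | zero => exact fun _ _ => rfl
    | succ j ih =>
      intro hj z
      rw [hearly j (by omega) z, ih (by omega) z]
  have hB : ∀ z, f (io (S.al t z)) = f z := by
    intro z
    rw [hearly2 t le_rfl z, al_apply, S.E0, e0_symm, e0_io, Equiv.apply_symm_apply]
  -- the function is invariant under two steps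
  have hC : ∀ z, f (S.al t (S.al t z)) = f z := fun z => by rw [hA, hB]
  have hD : ∀ z, f (S.E t (io (io z))) = f (S.E t z) := by
    intro z
    have h2 := hC (S.E t z)
    rw [al_apply, al_apply, Equiv.symm_apply_apply, Equiv.symm_apply_apply] at h2
    exact h2
  have hE : ∀ z, f (S.E t z) = 0 := by
    intro z
    by_cases hz : ka z = i
    · obtain ⟨⟨x, hx⟩, b⟩ := z
      have h2 := per (h := fun w => f (S.E t w)) h1 hD x hx b
      rw [h2]
      simp only [ka] at hz
      cases b
      · simp only [Bool.toNat_false, add_zero] at hz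
        rw [← hf3]
        congr 3
        exact Fin.ext hz
      · simp only [Bool.toNat_true] at hz
        rw [← hf4]
        congr 3
        apply Fin.ext
        simp only
        omega
    · apply hf0
      rw [S.ka_E hn ht fun s hs => hev s (by omega)]
      exact hz
  funext z
  have h2 := hE ((S.E t).symm z)
  rw [Equiv.apply_symm_apply] at h2
  exact h2

open Classical in
theorem count (hn : n % 2 = 1) (h1 : 1 ≤ n)
    (hev : ∀ t, t < n → (S.P t).val % 2 = (S.Q t).val % 2) {i t : ℕ} (hi : i < 2) (ht : t ≤ n) :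
    n ≤ 2 * (Finset.univ.filter fun s : Fin n => S.St i t s).card + 1 := by
  let J : Type := ({s : Fin n // S.St i t s} × Bool) ⊕ ({z : Ps n // ka z ≠ i} ⊕ Bool)
  let pr : Ps n → ((Ps n → ℚ) →ₗ[ℚ] ℚ) := fun z => LinearMap.proj z
  let L : J → ((Ps n → ℚ) →ₗ[ℚ] ℚ) := Sum.elim
    (fun p => if p.2 then
        (if t ≤ p.1.1.val then pr (S.c p.1.1.val) - pr (S.d p.1.1.val)
          else pr (io (S.c p.1.1.val)) - pr (io (S.d p.1.1.val)))
      else
        (if t ≤ p.1.1.val then pr (S.a p.1.1.val) - pr (S.b p.1.1.val)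
          else pr (io (S.a p.1.1.val)) - pr (io (S.b p.1.1.val))))
    (Sum.elim (fun z => pr z.1) (fun b => if b then pr (S.E t (⟨i, by omega⟩, false))
      else pr (S.E t (⟨1 - i, by omega⟩, true))))
  have hcard := card_le_of (X := Ps n) (J := J) (LinearMap.pi L) (by
    intro f hf
    have hL : ∀ j, L j f = 0 := fun j => congrFun hf j
    refine S.vanish hn h1 hev hi ht (fun z hz => ?_) (fun s hs1 hs2 hc => ?_)
      (fun s hs hc => ?_) ?_ ?_
    · exact hL (Sum.inr (Sum.inl ⟨z, hz⟩))
    · have hst : S.St i t ⟨s, hs2⟩ := Or.inl ⟨hs1, hc⟩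
      have e1 := hL (Sum.inl (⟨⟨s, hs2⟩, hst⟩, false))
      have e2 := hL (Sum.inl (⟨⟨s, hs2⟩, hst⟩, true))
      simp only [L, Sum.elim_inl, Bool.false_eq_true, if_false, if_true, if_pos hs1] at e1 e2
      exact ⟨sub_eq_zero.mp e1, sub_eq_zero.mp e2⟩
    · have hs2 : s < n := by omega
      have hst : S.St i t ⟨s, hs2⟩ := Or.inr ⟨hs, hc⟩
      have hs1 : ¬ t ≤ s := by omega
      have e1 := hL (Sum.inl (⟨⟨s, hs2⟩, hst⟩, false))
      have e2 := hL (Sum.inl (⟨⟨s, hs2⟩, hst⟩, true))
      simp only [L, Sum.elim_inl, Bool.false_eq_true, if_false, if_true, if_neg hs1] at e1 e2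
      exact ⟨sub_eq_zero.mp e1, sub_eq_zero.mp e2⟩
    · exact hL (Sum.inr (Sum.inr true))
    · exact hL (Sum.inr (Sum.inr false)))
  have hJ : Fintype.card J = (Finset.univ.filter fun s : Fin n => S.St i t s).card * 2
      + (Fintype.card {z : Ps n // ka z ≠ i} + 2) := by
    simp only [J]
    rw [Fintype.card_sum, Fintype.card_sum, Fintype.card_prod, Fintype.card_bool,
      Fintype.card_subtype]
  have hZ : Fintype.card {z : Ps n // ka z ≠ i} ≤ n + 1 := by
    have h2 : Fintype.card {z : Ps n // ka z ≠ i} ≤ Fintype.card (Fin (n + 1)) := by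
      apply Fintype.card_le_of_injective (fun z => z.1.1)
      rintro ⟨⟨x, b⟩, hz⟩ ⟨⟨y, c⟩, hz'⟩ hxy
      simp only at hxy
      subst hxy
      apply Subtype.ext
      refine Prod.ext rfl ?_
      simp only [ka] at hz hz'
      simp only
      cases b <;> cases c <;> simp_all <;> omega
    rwa [Fintype.card_fin] at h2
  have hX : Fintype.card (Ps n) = 2 * (n + 1) := by
    rw [Fintype.card_prod, Fintype.card_fin, Fintype.card_bool, mul_comm]
  omega

/-- the parities alternate -/
theorem alt (hn : n % 2 = 1) (h1 : 1 ≤ n)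
    (hev : ∀ t, t < n → (S.P t).val % 2 = (S.Q t).val % 2) {t : ℕ} (ht : t + 1 < n) :
    (S.P t).val % 2 ≠ (S.P (t + 1)).val % 2 := by
  classical
  intro heq
  set i := S.co t with hi
  have hi2 : i < 2 := Nat.mod_lt _ (by norm_num)
  have hco : S.co (t + 1) = i := by
    rw [hi]
    unfold co
    omega
  have c1 := S.count hn h1 hev (i := i) (t := t + 2) hi2 (by omega)
  have c2 := S.count hn h1 hev (i := 1 - i) (t := t) (by omega) (by omega)
  set A := Finset.univ.filter fun s : Fin n => S.St i (t + 2) s with hA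
  set B := Finset.univ.filter fun s : Fin n => S.St (1 - i) t s with hB
  set C : Finset (Fin n) := {⟨t, by omega⟩, ⟨t + 1, ht⟩} with hC
  have hCc : C.card = 2 := by
    rw [hC, Finset.card_pair]
    intro h
    have := congrArg Fin.val h
    simp at this
  have hco2 : ∀ s, S.co s < 2 := fun s => Nat.mod_lt _ (by norm_num)
  have d1 : Disjoint A B := by
    rw [Finset.disjoint_left]
    intro s hs1 hs2
    rw [hA, Finset.mem_filter] at hs1
    rw [hB, Finset.mem_filter] at hs2
    have h3 := hco2 s.val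
    rcases hs1.2 with ⟨h4, h5⟩ | ⟨h4, h5⟩ <;> rcases hs2.2 with ⟨h6, h7⟩ | ⟨h6, h7⟩
    · omega
    · omega
    · have h8 : s.val = t ∨ s.val = t + 1 := by omega
      rcases h8 with h8 | h8
      · rw [h8] at h5
        exact h5 hi.symm
      · rw [h8] at h5
        exact h5 hco
    · omega
  have d2 : Disjoint (A ∪ B) C := by
    rw [Finset.disjoint_left]
    intro s hs1 hs2
    have h8 : s.val = t ∨ s.val = t + 1 := by
      rw [hC, Finset.mem_insert, Finset.mem_singleton] at hs2
      rcases hs2 with h | h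
      · exact Or.inl (congrArg Fin.val h)
      · exact Or.inr (congrArg Fin.val h)
    have h9 : S.co s.val = i := by
      rcases h8 with h8 | h8
      · rw [h8]
      · rw [h8, hco]
    rcases Finset.mem_union.mp hs1 with hs1 | hs1
    · rw [hA, Finset.mem_filter] at hs1
      rcases hs1.2 with ⟨h4, h5⟩ | ⟨h4, h5⟩
      · omega
      · exact h5 h9
    · rw [hB, Finset.mem_filter] at hs1
      rcases hs1.2 with ⟨h4, h5⟩ | ⟨h4, h5⟩
      · omega
      · omega
  have h10 : (A ∪ B ∪ C).card ≤ n := by
    have := Finset.card_le_univ (A ∪ B ∪ C)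
    rwa [Fintype.card_fin] at this
  rw [Finset.card_union_of_disjoint d2, Finset.card_union_of_disjoint d1, hCc] at h10
  omega

end Sq

/-- sequences of at most `n` reversals which transform the reversed identity into the identity -/
theorem core {n k : ℕ} (S : Sq n k) (hn : n % 2 = 1) (h3 : 3 ≤ n) (hk : k ≤ n) :
    k = n ∧ (∀ t, t < n → (S.P t).val % 2 = (S.Q t).val % 2) ∧
      ∀ t, t < n → (S.P t).val % 2 = ((S.P 0).val + t) % 2 := by
  obtain ⟨h1, h2⟩ := S.even hn h3 hk
  subst h1
  refine ⟨rfl, h2, ?_⟩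
  intro t
  induction t with
  | zero => intro _; rfl
  | succ t ih =>
    intro ht
    have h4 := ih (by omega)
    have h5 := S.alt hn (by omega) h2 ht
    omega

end Pool.Agent.Y641.RS
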