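import Pool.Agent.Y641.RS.Lin

/-!
Reversals of a circular arrangement of `n + 1` oriented elements as permutations of the oriented
positions.
-/

set_option autoImplicit false

namespace Pool.Agent.Y641.RS

open Equiv

section circ

variable {n : ℕ}

/-- the next position on the circle -/
def sc (x : Fin (n + 1)) : Fin (n + 1) := ⟨if x.val = n then 0 else x.val + 1, by
  have := x.isLt
  split_ifs <;> omega⟩

/-- the previous position on the circle -/
def pd (x : Fin (n + 1)) : Fin (n + 1) := ⟨if x.val = 0 then n else x.val - 1, by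
  have := x.isLt
  split_ifs <;> omega⟩

/-- the opposite position -/
def ng (x : Fin (n + 1)) : Fin (n + 1) := ⟨if x.val = 0 then 0 else n + 1 - x.val, by
  have := x.isLt
  split_ifs <;> omega⟩

/-- the reflection of the positions `p + 1, …, q` -/
def rv (p q x : Fin (n + 1)) : Fin (n + 1) :=
  ⟨if p.val < x.val ∧ x.val ≤ q.val then p.val + q.val + 1 - x.val else x.val, by
    have := x.isLt
    have := q.isLt
    split_ifs <;> omega⟩

/-- oriented positions; `true` means opposite orientation -/
abbrev Ps (n : ℕ) : Type := Fin (n + 1) × Bool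

theorem sc_val (x : Fin (n + 1)) : (sc x).val = if x.val = n then 0 else x.val + 1 := rfl

theorem pd_val (x : Fin (n + 1)) : (pd x).val = if x.val = 0 then n else x.val - 1 := rfl

theorem ng_val (x : Fin (n + 1)) : (ng x).val = if x.val = 0 then 0 else n + 1 - x.val := rfl

theorem pd_sc (x : Fin (n + 1)) : pd (sc x) = x := by
  have := x.isLt
  apply Fin.ext
  have h := sc_val x
  rw [pd_val]
  split_ifs at h ⊢ <;> omega

theorem sc_pd (x : Fin (n + 1)) : sc (pd x) = x := by
  have := x.isLt
  apply Fin.ext
  have h := pd_val x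
  rw [sc_val]
  split_ifs at h ⊢ <;> omega

/-- the next oriented position -/
def io : Perm (Ps n) where
  toFun z := (if z.2 then pd z.1 else sc z.1, z.2)
  invFun z := (if z.2 then sc z.1 else pd z.1, z.2)
  left_inv := by
    rintro ⟨x, b⟩
    cases b
    · exact Prod.ext (pd_sc x) rfl
    · exact Prod.ext (sc_pd x) rfl
  right_inv := by
    rintro ⟨x, b⟩
    cases b
    · exact Prod.ext (sc_pd x) rfl
    · exact Prod.ext (pd_sc x) rfl

theorem io_false (x : Fin (n + 1)) : io (x, false) = (sc x, false) := rfl

theorem io_true (x : Fin (n + 1)) : io (x, true) = (pd x, true) := rfl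

theorem io_symm_false (x : Fin (n + 1)) : io.symm (x, false) = (pd x, false) := rfl

theorem io_symm_true (x : Fin (n + 1)) : io.symm (x, true) = (sc x, true) := rfl

theorem ng_ng (x : Fin (n + 1)) : ng (ng x) = x := by
  have := x.isLt
  apply Fin.ext
  simp only [ng]
  split_ifs <;> omega

/-- the reversed identity -/
def e0 : Perm (Ps n) where
  toFun z := (ng z.1, z.2)
  invFun z := (ng z.1, z.2)
  left_inv := fun z => Prod.ext (ng_ng z.1) rfl
  right_inv := fun z => Prod.ext (ng_ng z.1) rfl

theorem e0_apply (x : Fin (n + 1)) (b : Bool) : e0 (x, b) = (ng x, b) := rfl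

theorem e0_symm (z : Ps n) : e0.symm z = e0 z := rfl

theorem e0_io (z : Ps n) : e0 (io (e0 z)) = io.symm z := by
  obtain ⟨x, b⟩ := z
  have := x.isLt
  cases b
  · change (ng (sc (ng x)), false) = (pd x, false)
    refine Prod.ext (Fin.ext ?_) rfl
    have h1 := ng_val x
    have h2 := sc_val (ng x)
    have h3 := ng_val (sc (ng x))
    have h4 := pd_val x
    simp only
    split_ifs at h1 h2 h3 h4 <;> omega
  · change (ng (pd (ng x)), true) = (sc x, true)
    refine Prod.ext (Fin.ext ?_) rfl
    have h1 := ng_val x
    have h2 := pd_val (ng x)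
    have h3 := ng_val (pd (ng x))
    have h4 := sc_val x
    simp only
    split_ifs at h1 h2 h3 h4 <;> omega

/-- the position after a reversal -/
def rf (p q : Fin (n + 1)) (z : Ps n) : Ps n :=
  if p.val < z.1.val ∧ z.1.val ≤ q.val then (rv p q z.1, !z.2) else z

theorem rf_in {p q x : Fin (n + 1)} (h : p.val < x.val ∧ x.val ≤ q.val) (b : Bool) :
    rf p q (x, b) = (rv p q x, !b) := by
  unfold rf
  rw [if_pos h]

theorem rf_out {p q x : Fin (n + 1)} (h : ¬ (p.val < x.val ∧ x.val ≤ q.val)) (b : Bool) :
    rf p q (x, b) = (x, b) := by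
  unfold rf
  rw [if_neg h]

theorem rv_val {p q x : Fin (n + 1)} (h : p.val < x.val ∧ x.val ≤ q.val) :
    (rv p q x).val = p.val + q.val + 1 - x.val := by
  unfold rv
  simp only
  rw [if_pos h]

theorem rf_rf (p q : Fin (n + 1)) (z : Ps n) : rf p q (rf p q z) = z := by
  obtain ⟨x, b⟩ := z
  by_cases h : p.val < x.val ∧ x.val ≤ q.val
  · have h1 := rv_val h
    have h2 : p.val < (rv p q x).val ∧ (rv p q x).val ≤ q.val := by omega
    rw [rf_in h, rf_in h2, Bool.not_not]
    refine Prod.ext (Fin.ext ?_) rfl
    simp only
    rw [rv_val h2, h1]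
    omega
  · rw [rf_out h, rf_out h]

/-- a reversal -/
def rr (p q : Fin (n + 1)) : Perm (Ps n) where
  toFun := rf p q
  invFun := rf p q
  left_inv := rf_rf p q
  right_inv := rf_rf p q

theorem rr_apply (p q : Fin (n + 1)) (z : Ps n) : rr p q z = rf p q z := rfl

theorem rr_symm (p q : Fin (n + 1)) (z : Ps n) : (rr p q).symm z = rf p q z := rfl

/-- the product of the two transpositions -/
def th (p q : Fin (n + 1)) (z : Ps n) : Ps n :=
  swap (sc p, false) (q, true) (swap (sc q, false) (p, true) z)

theorem ps_ne {y y' : Fin (n + 1)} {c c' : Bool} (h : y.val ≠ y'.val ∨ c ≠ c') :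
    ((y, c) : Ps n) ≠ (y', c') := by
  intro he
  have h1 := Prod.ext_iff.mp he
  rcases h with h | h
  · exact h (congrArg Fin.val h1.1)
  · exact h h1.2

theorem th_a {p q : Fin (n + 1)} (hpq : p.val < q.val) : th p q (sc p, false) = (q, true) := by
  have := q.isLt
  unfold th
  rw [swap_apply_of_ne_of_ne (a := (sc q, false)) (ps_ne (Or.inl ?_)) (ps_ne (Or.inr (by decide))),
    swap_apply_left]
  rw [sc_val, sc_val]
  split_ifs <;> omega

theorem th_b {p q : Fin (n + 1)} (hpq : p.val < q.val) : th p q (q, true) = (sc p, false) := by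
  unfold th
  rw [swap_apply_of_ne_of_ne (a := (sc q, false)) (ps_ne (Or.inr (by decide)))
    (ps_ne (Or.inl (by omega))), swap_apply_right]

theorem th_c {p q : Fin (n + 1)} (hpq : p.val < q.val) : th p q (sc q, false) = (p, true) := by
  unfold th
  rw [swap_apply_left, swap_apply_of_ne_of_ne (ps_ne (Or.inr (by decide)))
    (ps_ne (Or.inl (by omega)))]

theorem th_d {p q : Fin (n + 1)} (hpq : p.val < q.val) : th p q (p, true) = (sc q, false) := by
  have := q.isLt
  unfold th
  rw [swap_apply_right, swap_apply_of_ne_of_ne (ps_ne (Or.inl ?_)) (ps_ne (Or.inr (by decide)))]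
  rw [sc_val, sc_val]
  split_ifs <;> omega

theorem th_false {p q x : Fin (n + 1)} (h1 : x.val ≠ (sc p).val) (h2 : x.val ≠ (sc q).val) :
    th p q (x, false) = (x, false) := by
  unfold th
  rw [swap_apply_of_ne_of_ne (a := (sc q, false)) (ps_ne (Or.inl h2)) (ps_ne (Or.inr (by decide))),
    swap_apply_of_ne_of_ne (ps_ne (Or.inl h1)) (ps_ne (Or.inr (by decide)))]

theorem th_true {p q x : Fin (n + 1)} (h1 : x.val ≠ p.val) (h2 : x.val ≠ q.val) :
    th p q (x, true) = (x, true) := by
  unfold th
  rw [swap_apply_of_ne_of_ne (a := (sc q, false)) (ps_ne (Or.inr (by decide))) (ps_ne (Or.inl h1)),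
    swap_apply_of_ne_of_ne (ps_ne (Or.inr (by decide))) (ps_ne (Or.inl h2))]

/-- a reversal changes two adjacencies of the circular arrangement -/
theorem rr_io (p q : Fin (n + 1)) (hpq : p < q) (z : Ps n) :
    rf p q (io (rf p q z)) = th p q (io z) := by
  obtain ⟨x, b⟩ := z
  have hx := x.isLt
  have hq := q.isLt
  have hlt : p.val < q.val := hpq
  have hscp : (sc p).val = p.val + 1 := by
    rw [sc_val, if_neg (by omega)]
  have hscq : (sc q).val = if q.val = n then 0 else q.val + 1 := rfl
  by_cases h : p.val < x.val ∧ x.val ≤ q.val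
  · have h1 := rv_val h
    rw [rf_in h]
    cases b
    · -- forward orientation
      have hpr : (pd (rv p q x)).val = p.val + q.val - x.val := by
        rw [pd_val, if_neg (by omega), h1]
        omega
      rw [Bool.not_false, io_true, io_false]
      by_cases hxq : x.val = q.val
      · have h2 : ¬ (p.val < (pd (rv p q x)).val ∧ (pd (rv p q x)).val ≤ q.val) := by omega
        have h3 : x = q := Fin.ext hxq
        rw [rf_out h2, h3, th_c hlt]
        refine Prod.ext (Fin.ext ?_) rfl
        rw [h3] at hpr
        simp only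
        omega
      · have hsx : (sc x).val = x.val + 1 := by
          rw [sc_val, if_neg (by omega)]
        have h2 : p.val < (pd (rv p q x)).val ∧ (pd (rv p q x)).val ≤ q.val := by omega
        rw [rf_in h2, Bool.not_true, th_false (by omega) (by rw [hscq]; split_ifs <;> omega)]
        refine Prod.ext (Fin.ext ?_) rfl
        simp only
        rw [rv_val h2, hsx]
        omega
    · -- backward orientation
      have hpx : (pd x).val = x.val - 1 := by
        rw [pd_val, if_neg (by omega)]
      have hsr : (sc (rv p q x)).val = if x.val = p.val + 1 ∧ q.val = n then 0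
          else p.val + q.val + 2 - x.val := by
        rw [sc_val, h1]
        split_ifs <;> omega
      rw [Bool.not_true, io_false, io_true]
      by_cases hxp : x.val = p.val + 1
      · have h2 : ¬ (p.val < (sc (rv p q x)).val ∧ (sc (rv p q x)).val ≤ q.val) := by
          rw [hsr]
          split_ifs <;> omega
        have h3 : pd x = p := Fin.ext (by omega)
        rw [rf_out h2, h3, th_d hlt]
        refine Prod.ext (Fin.ext ?_) rfl
        simp only
        rw [hsr, hscq]
        split_ifs <;> omega
      · have h2 : p.val < (sc (rv p q x)).val ∧ (sc (rv p q x)).val ≤ q.val := by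
          rw [hsr]
          split_ifs <;> omega
        rw [rf_in h2, Bool.not_false, th_true (by omega) (by omega)]
        refine Prod.ext (Fin.ext ?_) rfl
        simp only
        rw [rv_val h2, hsr, if_neg (by omega)]
        omega
  · rw [rf_out h]
    cases b
    · have hsx : (sc x).val = if x.val = n then 0 else x.val + 1 := rfl
      rw [io_false]
      by_cases hxp : x.val = p.val
      · have h3 : x = p := Fin.ext hxp
        rw [h3]
        have h2 : p.val < (sc p).val ∧ (sc p).val ≤ q.val := by omega
        rw [rf_in h2, Bool.not_false, th_a hlt]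
        refine Prod.ext (Fin.ext ?_) rfl
        simp only
        rw [rv_val h2]
        omega
      · have h2 : ¬ (p.val < (sc x).val ∧ (sc x).val ≤ q.val) := by
          rw [hsx]
          split_ifs <;> omega
        have hxq : x.val ≠ q.val := by omega
        rw [rf_out h2, th_false]
        · rw [hsx]
          split_ifs <;> omega
        · rw [hsx, hscq]
          split_ifs <;> omega
    · have hpx : (pd x).val = if x.val = 0 then n else x.val - 1 := rfl
      rw [io_true]
      by_cases hxq : (pd x).val = q.val
      · have h3 : pd x = q := Fin.ext hxq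
        rw [h3]
        have h2 : p.val < q.val ∧ q.val ≤ q.val := ⟨hlt, le_rfl⟩
        rw [rf_in h2, Bool.not_true, th_b hlt]
        refine Prod.ext (Fin.ext ?_) rfl
        simp only
        rw [rv_val h2]
        omega
      · have h2 : ¬ (p.val < (pd x).val ∧ (pd x).val ≤ q.val) := by
          rw [hpx] at hxq ⊢
          split_ifs at hxq ⊢ <;> omega
        have hxp : (pd x).val ≠ p.val := by
          rw [hpx] at hxq ⊢
          split_ifs at hxq ⊢ <;> omega
        rw [rf_out h2, th_true hxp hxq]

/-- the colour of an oriented position -/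
def ka (z : Ps n) : ℕ := (z.1.val + z.2.toNat) % 2

theorem ka_lt (z : Ps n) : ka z < 2 := Nat.mod_lt _ (by norm_num)

theorem ka_io (hn : n % 2 = 1) (z : Ps n) : ka (io z) ≠ ka z := by
  obtain ⟨x, b⟩ := z
  have := x.isLt
  cases b
  · rw [io_false]
    simp only [ka, sc, Bool.toNat_false]
    split_ifs <;> omega
  · rw [io_true]
    simp only [ka, pd, Bool.toNat_true]
    split_ifs <;> omega

theorem ka_e0 (hn : n % 2 = 1) (z : Ps n) : ka (e0 z) = ka z := by
  obtain ⟨x, b⟩ := z
  have := x.isLt
  rw [e0_apply]
  simp only [ka, ng]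
  split_ifs <;> omega

theorem ka_rf {p q : Fin (n + 1)} (hpq : p.val % 2 = q.val % 2) (z : Ps n) :
    ka (rf p q z) = ka z := by
  obtain ⟨x, b⟩ := z
  by_cases h : p.val < x.val ∧ x.val ≤ q.val
  · rw [rf_in h]
    have h1 := rv_val h
    simp only [ka]
    rw [h1]
    cases b <;> simp <;> omega
  · rw [rf_out h]

end circ

end Pool.Agent.Y641.RS
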