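import Pool.Agent.Y641.RS.Circ

/-!
Sequences of at most `n` reversals which transform the reversed identity of odd size `n` into the
identity: there are exactly `n` of them, they have even length, and the parities of their left ends
alternate.
-/

set_option autoImplicit false

namespace Pool.Agent.Y641.RS

open Equiv

/-- a sequence of `k` reversals which transforms the reversed identity into the identity -/
structure Sq (n k : ℕ) where
  P : ℕ → Fin (n + 1)
  Q : ℕ → Fin (n + 1)
  lt : ∀ t, t < k → P t < Q t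
  E : ℕ → Perm (Ps n)
  E0 : E 0 = e0
  ES : ∀ t, t < k → E (t + 1) = E t * rr (P t) (Q t)
  Ek : E k = 1

namespace Sq

variable {n k : ℕ} (S : Sq n k)

def a (t : ℕ) : Ps n := S.E t (sc (S.P t), false)
def b (t : ℕ) : Ps n := S.E t (S.Q t, true)
def c (t : ℕ) : Ps n := S.E t (sc (S.Q t), false)
def d (t : ℕ) : Ps n := S.E t (S.P t, true)

/-- the adjacencies at time `t` -/
def al (t : ℕ) : Perm (Ps n) := ((S.E t).symm.trans io).trans (S.E t)

/-- the breakpoint graph at time `t` -/
def ga (t : ℕ) : Perm (Ps n) := io.symm.trans (S.al t)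

theorem al_apply (t : ℕ) (z : Ps n) : S.al t z = S.E t (io ((S.E t).symm z)) := rfl

theorem ga_apply (t : ℕ) (z : Ps n) : S.ga t z = S.al t (io.symm z) := rfl

theorem al_succ {t : ℕ} (ht : t < k) (z : Ps n) :
    S.al (t + 1) z = swap (S.a t) (S.b t) (swap (S.c t) (S.d t) (S.al t z)) := by
  have h1 : S.E (t + 1) = S.E t * rr (S.P t) (S.Q t) := S.ES t ht
  have h2 : (S.E (t + 1)).symm z = rf (S.P t) (S.Q t) ((S.E t).symm z) := by
    rw [Equiv.symm_apply_eq, h1, Perm.mul_apply, rr_apply, rf_rf, Equiv.apply_symm_apply]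
  rw [al_apply, h2, h1, Perm.mul_apply, rr_apply, rr_io _ _ (S.lt t ht), al_apply]
  unfold th a b c d
  rw [(S.E t).injective.map_swap, (S.E t).injective.map_swap]

theorem ga_succ {t : ℕ} (ht : t < k) :
    S.ga (t + 1) = swap (S.a t) (S.b t) * (swap (S.c t) (S.d t) * S.ga t) := by
  apply Equiv.ext
  intro z
  rw [ga_apply, S.al_succ ht, Perm.mul_apply, Perm.mul_apply, ga_apply]

theorem cy_succ {t : ℕ} (ht : t < k) : cy (S.ga (t + 1)) ≤ cy (S.ga t) + 2 := by
  rw [S.ga_succ ht]
  have h1 := cy_le (swap (S.c t) (S.d t) * S.ga t) (S.a t) (S.b t)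
  have h2 := cy_le (S.ga t) (S.c t) (S.d t)
  omega

theorem cy_add {t : ℕ} (s : ℕ) (ht : t + s ≤ k) : cy (S.ga (t + s)) ≤ cy (S.ga t) + 2 * s := by
  induction s with
  | zero => exact le_rfl
  | succ s ih =>
    have h1 := S.cy_succ (t := t + s) (by omega)
    have h2 := ih (by omega)
    rw [show t + (s + 1) = t + s + 1 from rfl]
    omega

theorem ga_zero (z : Ps n) : S.ga 0 z = io.symm (io.symm z) := by
  rw [ga_apply, al_apply, S.E0, e0_symm, e0_io]

theorem ga_last : S.ga k = 1 := by
  apply Equiv.ext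
  intro z
  rw [ga_apply, al_apply, S.Ek]
  exact Equiv.apply_symm_apply io z

theorem cy_last : cy (S.ga k) = 2 * (n + 1) := by
  rw [S.ga_last, cy_one, Fintype.card_prod, Fintype.card_fin, Fintype.card_bool, mul_comm]

end Sq

theorem per {n : ℕ} {h : Ps n → ℚ} (hn : 1 ≤ n) (hh : ∀ z, h (io (io z)) = h z) :
    ∀ (x : ℕ) (hx : x < n + 1) (b : Bool), h (⟨x, hx⟩, b) = h (⟨x % 2, by omega⟩, b) := by
  intro x
  induction x using Nat.strong_induction_on with
  | _ x ih =>
    intro hx b
    by_cases h2 : x < 2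
    · congr 2
      exact Fin.ext (Nat.mod_eq_of_lt h2).symm
    · have hx' : x - 2 < n + 1 := by omega
      have h3 := ih (x - 2) (by omega) hx' b
      have h4 : h (⟨x, hx⟩, b) = h (⟨x - 2, hx'⟩, b) := by
        cases b
        · rw [← hh (⟨x - 2, hx'⟩, false)]
          congr 1
          refine Prod.ext (Fin.ext ?_) rfl
          change x = (sc (sc (⟨x - 2, hx'⟩ : Fin (n + 1)))).val
          have e1 := sc_val (⟨x - 2, hx'⟩ : Fin (n + 1))
          have e2 := sc_val (sc (⟨x - 2, hx'⟩ : Fin (n + 1)))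
          simp only at e1
          split_ifs at e1 e2 <;> omega
        · rw [← hh (⟨x, hx⟩, true)]
          congr 1
          refine Prod.ext (Fin.ext ?_) rfl
          change (pd (pd (⟨x, hx⟩ : Fin (n + 1)))).val = x - 2
          have e1 := pd_val (⟨x, hx⟩ : Fin (n + 1))
          have e2 := pd_val (pd (⟨x, hx⟩ : Fin (n + 1)))
          simp only at e1
          split_ifs at e1 e2 <;> omega
      rw [h4, h3]
      congr 2
      apply Fin.ext
      simp only
      omega

namespace Sq

variable {n k : ℕ} (S : Sq n k)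

theorem cy_zero (hn : 1 ≤ n) : cy (S.ga 0) ≤ 4 := by
  have h := cy_le_of (σ := S.ga 0) (J := Bool × Bool)
    (fun j => ((if j.1 then ⟨1, by omega⟩ else ⟨0, by omega⟩ : Fin (n + 1)), j.2)) (by
    intro f hf hz
    have hh : ∀ z, f (io (io z)) = f z := by
      intro z
      have := hf (io (io z))
      rw [S.ga_zero, Equiv.symm_apply_apply, Equiv.symm_apply_apply] at this
      exact this.symm
    funext ⟨⟨x, hx⟩, b⟩
    rw [per hn hh x hx b]
    have hx2 : x % 2 = 0 ∨ x % 2 = 1 := by omega
    rcases hx2 with h0 | h1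
    · have := hz (false, b)
      simp only [Bool.false_eq_true, if_false] at this
      rw [Pi.zero_apply, ← this]
      congr 2
      exact Fin.ext h0
    · have := hz (true, b)
      simp only [if_true] at this
      rw [Pi.zero_apply, ← this]
      congr 2
      exact Fin.ext h1)
  simpa using h

theorem first (hn : 1 ≤ n) (hk : 0 < k) : cy (S.ga 1) ≤ 4 ∧
    (n % 2 = 1 → (S.P 0).val % 2 ≠ (S.Q 0).val % 2 → cy (S.ga 1) ≤ 2) := by
  have h0 := S.cy_zero hn
  have hc : S.c 0 = (ng (sc (S.Q 0)), false) := by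
    unfold c
    rw [S.E0, e0_apply]
  have hd : S.d 0 = (ng (S.P 0), true) := by
    unfold d
    rw [S.E0, e0_apply]
  have ha : S.a 0 = (ng (sc (S.P 0)), false) := by
    unfold a
    rw [S.E0, e0_apply]
  have hb : S.b 0 = (ng (S.Q 0), true) := by
    unfold b
    rw [S.E0, e0_apply]
  have h1 : cy (swap (S.c 0) (S.d 0) * S.ga 0) < cy (S.ga 0) := by
    apply cy_lt (g := fun z : Ps n => if z.2 then 1 else 0)
    · intro z
      obtain ⟨x, b⟩ := z
      rw [S.ga_zero]
      cases b <;> rfl
    · rw [hc, hd]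
      simp
  have h2 := cy_le (swap (S.c 0) (S.d 0) * S.ga 0) (S.a 0) (S.b 0)
  have h3 := S.ga_succ hk
  rw [zero_add] at h3
  refine ⟨by rw [h3]; omega, fun hodd hpq => ?_⟩
  have hlt : (S.P 0).val < (S.Q 0).val := S.lt 0 hk
  have hQ := (S.Q 0).isLt
  have hP1 : (sc (S.P 0)).val = (S.P 0).val + 1 := by
    rw [sc_val, if_neg (by omega)]
  have hQ1 := sc_val (S.Q 0)
  have hP2 := ng_val (sc (S.P 0))
  have hQ2 := ng_val (sc (S.Q 0))
  have h4 : cy (swap (S.a 0) (S.b 0) * (swap (S.c 0) (S.d 0) * S.ga 0))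
      < cy (swap (S.c 0) (S.d 0) * S.ga 0) := by
    apply cy_lt (g := fun z : Ps n =>
      if z.2 = false ∧ z.1.val % 2 = (S.a 0).1.val % 2 then 1 else 0)
    · intro z
      rw [Perm.mul_apply]
      refine (swap_inv (f := fun z : Ps n =>
        if z.2 = false ∧ z.1.val % 2 = (S.a 0).1.val % 2 then (1 : ℚ) else 0) ?_ _).trans ?_
      swap
      · rw [S.ga_zero]
        obtain ⟨x, b⟩ := z
        have hx := x.isLt
        cases b
        · rw [io_symm_false, io_symm_false]
          have e1 := pd_val x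
          have e2 := pd_val (pd x)
          have e3 : (pd (pd x)).val % 2 = x.val % 2 := by
            split_ifs at e1 e2 <;> omega
          simp only
          rw [e3]
        · rw [io_symm_true, io_symm_true]
          simp
      · rw [hc, hd, ha]
        simp only [true_and]
        rw [if_neg, if_neg]
        · simp
        · rw [hQ2, hP2]
          split_ifs at hQ1 ⊢ <;> omega
    · rw [ha, hb]
      simp
  rw [h3]
  omega

theorem ka_E (hn : n % 2 = 1) {t : ℕ} (ht : t ≤ k)
    (h : ∀ s, s < t → (S.P s).val % 2 = (S.Q s).val % 2) (z : Ps n) : ka (S.E t z) = ka z := by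
  induction t generalizing z with
  | zero => rw [S.E0, ka_e0 hn]
  | succ t ih =>
    rw [S.ES t (by omega), Perm.mul_apply, ih (by omega) fun s hs => h s (by omega), rr_apply,
      ka_rf (h t (by omega))]

theorem ka_Es (hn : n % 2 = 1) {t : ℕ} (ht : t ≤ k)
    (h : ∀ s, s < t → (S.P s).val % 2 = (S.Q s).val % 2) (z : Ps n) :
    ka ((S.E t).symm z) = ka z := by
  have := S.ka_E hn ht h ((S.E t).symm z)
  rw [Equiv.apply_symm_apply] at this
  exact this.symm

theorem ka_al (hn : n % 2 = 1) {t : ℕ} (ht : t ≤ k)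
    (h : ∀ s, s < t → (S.P s).val % 2 = (S.Q s).val % 2) (z : Ps n) :
    ka (S.al t z) = 1 - ka z := by
  rw [al_apply, S.ka_E hn ht h]
  have h1 := ka_io hn ((S.E t).symm z)
  rw [S.ka_Es hn ht h] at h1
  have h2 := ka_lt (io ((S.E t).symm z))
  have h3 := ka_lt z
  omega

theorem ka_ga (hn : n % 2 = 1) {t : ℕ} (ht : t ≤ k)
    (h : ∀ s, s < t → (S.P s).val % 2 = (S.Q s).val % 2) (z : Ps n) :
    ka (S.ga t z) = ka z := by
  rw [ga_apply, S.ka_al hn ht h]
  have h1 := ka_io hn (io.symm z)
  rw [Equiv.apply_symm_apply] at h1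
  have h2 := ka_lt (io.symm z)
  have h3 := ka_lt z
  omega

theorem ka_a (hn : n % 2 = 1) {t : ℕ} (ht : t < k)
    (h : ∀ s, s < t → (S.P s).val % 2 = (S.Q s).val % 2) :
    ka (S.a t) = ((S.P t).val + 1) % 2 := by
  unfold a
  rw [S.ka_E hn ht.le h]
  have hlt : (S.P t).val < (S.Q t).val := S.lt t ht
  have hQ := (S.Q t).isLt
  simp only [ka, Bool.toNat_false, add_zero]
  rw [sc_val, if_neg (by omega)]

theorem ka_b (hn : n % 2 = 1) {t : ℕ} (ht : t < k)
    (h : ∀ s, s < t → (S.P s).val % 2 = (S.Q s).val % 2) :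
    ka (S.b t) = ((S.Q t).val + 1) % 2 := by
  unfold b
  rw [S.ka_E hn ht.le h]
  simp only [ka, Bool.toNat_true]

theorem ka_c (hn : n % 2 = 1) {t : ℕ} (ht : t < k)
    (h : ∀ s, s < t → (S.P s).val % 2 = (S.Q s).val % 2) :
    ka (S.c t) = ((S.Q t).val + 1) % 2 := by
  unfold c
  rw [S.ka_E hn ht.le h]
  have hQ := (S.Q t).isLt
  have h1 := sc_val (S.Q t)
  simp only [ka, Bool.toNat_false, add_zero]
  rw [h1]
  split_ifs <;> omega

theorem ka_d (hn : n % 2 = 1) {t : ℕ} (ht : t < k)
    (h : ∀ s, s < t → (S.P s).val % 2 = (S.Q s).val % 2) :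
    ka (S.d t) = ((S.P t).val + 1) % 2 := by
  unfold d
  rw [S.ka_E hn ht.le h]
  simp only [ka, Bool.toNat_true]

/-- all reversals have even length, and there are at least `n` of them -/
theorem even (hn : n % 2 = 1) (h3 : 3 ≤ n) (hk : k ≤ n) :
    k = n ∧ ∀ t, t < k → (S.P t).val % 2 = (S.Q t).val % 2 := by
  have hlast := S.cy_last
  have hk0 : 0 < k := by
    rcases Nat.eq_zero_or_pos k with h | h
    · subst h
      have := S.cy_zero (by omega)
      omega
    · exact h
  have hb : ∀ t, 1 ≤ t → t ≤ k → cy (S.ga t) ≤ 2 * t + 2 := by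
    intro t h1 h2
    have h4 := S.cy_add (t := 1) (t - 1) (by omega)
    have h5 := (S.first (by omega) hk0).1
    rw [show 1 + (t - 1) = t by omega] at h4
    omega
  have hbad : ∀ t, t < k → ¬ cy (S.ga (t + 1)) ≤ 2 * (t + 1) := by
    intro t ht h
    have h4 := S.cy_add (t := t + 1) (k - (t + 1)) (by omega)
    rw [show t + 1 + (k - (t + 1)) = k by omega] at h4
    omega
  refine ⟨by have := hb k hk0 le_rfl; omega, ?_⟩
  intro t
  induction t using Nat.strong_induction_on with
  | _ t ih =>
    intro ht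
    by_contra hne
    have hprev : ∀ s, s < t → (S.P s).val % 2 = (S.Q s).val % 2 := fun s hs =>
      ih s hs (by omega)
    rcases Nat.eq_zero_or_pos t with h0 | h0
    · subst h0
      exact hbad 0 ht ((S.first (by omega) hk0).2 hn hne)
    · apply hbad t ht
      have h4 : cy (swap (S.c t) (S.d t) * S.ga t) < cy (S.ga t) := by
        apply cy_lt (g := fun z : Ps n => (ka z : ℚ))
        · intro z
          simp only
          rw [S.ka_ga hn ht.le hprev]
        · rw [S.ka_c hn ht hprev, S.ka_d hn ht hprev]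
          intro he
          have he2 : ((S.Q t).val + 1) % 2 = ((S.P t).val + 1) % 2 := by exact_mod_cast he
          omega
      have h5 := cy_le (swap (S.c t) (S.d t) * S.ga t) (S.a t) (S.b t)
      rw [S.ga_succ ht]
      have h6 := hb t h0 ht.le
      omega

end Sq

end Pool.Agent.Y641.RS
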