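import Mathlib

/-!
Functions invariant under a permutation, and multiplication of the permutation by a transposition.
-/

set_option autoImplicit false

namespace Pool.Agent.Y641.RS

open Equiv

section lin

variable {X : Type} [Fintype X] [DecidableEq X]

/-- the space of the functions which are invariant under a permutation -/
def Fx (σ : Perm X) : Submodule ℚ (X → ℚ) where
  carrier := {f | ∀ x, f (σ x) = f x}
  add_mem' := by
    intro f g hf hg x
    simp only [Pi.add_apply]
    rw [hf x, hg x]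
  zero_mem' := fun _ => rfl
  smul_mem' := by
    intro a f hf x
    simp only [Pi.smul_apply]
    rw [hf x]

omit [Fintype X] [DecidableEq X] in
theorem mem_Fx {σ : Perm X} {f : X → ℚ} : f ∈ Fx σ ↔ ∀ x, f (σ x) = f x := Iff.rfl

/-- its dimension (the number of cycles of the permutation) -/
noncomputable def cy (σ : Perm X) : ℕ := Module.finrank ℚ (Fx σ)

theorem key {σ : Perm X} {x y : X} {f g : X → ℚ} (hf : f ∈ Fx (swap x y * σ)) (hg : g ∈ Fx σ)
    (h : g x ≠ g y) : f x = f y := by
  have hxy : x ≠ y := fun e => h (by rw [e])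
  have h1 : ∀ u, f (swap x y u) = f (σ.symm u) := by
    intro u
    have := hf (σ.symm u)
    rwa [Perm.mul_apply, Equiv.apply_symm_apply] at this
  have h2 : ∑ u, g u * f (σ.symm u) = ∑ u, g u * f u := by
    rw [← Equiv.sum_comp σ]
    refine Finset.sum_congr rfl fun z _ => ?_
    rw [Equiv.symm_apply_apply, hg z]
  have h3 : ∑ u, g u * (f (swap x y u) - f u) = 0 := by
    simp only [mul_sub, Finset.sum_sub_distrib]
    rw [← h2, sub_eq_zero]
    exact Finset.sum_congr rfl fun u _ => by rw [h1]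
  rw [Fintype.sum_eq_add x y hxy] at h3
  · rw [swap_apply_left, swap_apply_right] at h3
    have h4 : (g x - g y) * (f y - f x) = 0 := by linear_combination h3
    rcases mul_eq_zero.mp h4 with h5 | h5
    · exact absurd (sub_eq_zero.mp h5) h
    · exact (sub_eq_zero.mp h5).symm
  · rintro u ⟨h5, h6⟩
    rw [swap_apply_of_ne_of_ne h5 h6, sub_self, mul_zero]

omit [Fintype X] in
theorem swap_inv {x y : X} {f : X → ℚ} (h : f x = f y) (u : X) : f (swap x y u) = f u := by
  rw [swap_apply_def]
  split_ifs with h1 h2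
  · rw [h1, h]
  · rw [h2, h]
  · rfl

theorem cy_lt {σ : Perm X} {x y : X} {g : X → ℚ} (hg : g ∈ Fx σ) (h : g x ≠ g y) :
    cy (swap x y * σ) < cy σ := by
  apply Submodule.finrank_lt_finrank_of_lt
  rw [SetLike.lt_iff_le_and_exists]
  refine ⟨fun f hf z => ?_, g, hg, fun hg' => h (key hg' hg h)⟩
  have h1 := key hf hg h
  have h2 := hf z
  rw [Perm.mul_apply, swap_inv h1] at h2
  exact h2

theorem cy_le (σ : Perm X) (x y : X) : cy (swap x y * σ) ≤ cy σ + 1 := by
  let φ : (X → ℚ) →ₗ[ℚ] ℚ :=
    (LinearMap.proj x : (X → ℚ) →ₗ[ℚ] ℚ) - (LinearMap.proj y : (X → ℚ) →ₗ[ℚ] ℚ)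
  let ψ : Fx (swap x y * σ) →ₗ[ℚ] ℚ := φ.domRestrict _
  have h1 := LinearMap.finrank_range_add_finrank_ker ψ
  have h2 : Module.finrank ℚ (LinearMap.range ψ) ≤ 1 := by
    have := Submodule.finrank_le (LinearMap.range ψ)
    rwa [Module.finrank_self] at this
  have h3 : Module.finrank ℚ (LinearMap.ker ψ) ≤ cy σ := by
    let j : LinearMap.ker ψ →ₗ[ℚ] Fx σ :=
      LinearMap.codRestrict (Fx σ) ((Fx (swap x y * σ)).subtype ∘ₗ (LinearMap.ker ψ).subtype) (by
        intro f z
        have hf := f.1.2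
        have hf2 : f.1.1 x = f.1.1 y := by
          have h4 : ψ f.1 = 0 := f.2
          have h5 : f.1.1 x - f.1.1 y = 0 := h4
          exact sub_eq_zero.mp h5
        have h6 := hf z
        rw [Perm.mul_apply, swap_inv hf2] at h6
        exact h6)
    apply LinearMap.finrank_le_finrank_of_injective (f := j)
    intro f g hfg
    apply Subtype.ext
    apply Subtype.ext
    exact congrArg (fun q : Fx σ => (q : X → ℚ)) hfg
  unfold cy
  unfold cy at h3
  omega

omit [DecidableEq X] in
theorem cy_one : cy (1 : Perm X) = Fintype.card X := by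
  have h : Fx (1 : Perm X) = ⊤ := by
    rw [eq_top_iff]
    intro f _ z
    rfl
  unfold cy
  rw [h, finrank_top, Module.finrank_fintype_fun_eq_card]

omit [Fintype X] [DecidableEq X] in
theorem cy_le_of {σ : Perm X} {J : Type} [Fintype J] (p : J → X)
    (h : ∀ f ∈ Fx σ, (∀ j, f (p j) = 0) → f = 0) : cy σ ≤ Fintype.card J := by
  have h1 : Module.finrank ℚ (J → ℚ) = Fintype.card J := Module.finrank_fintype_fun_eq_card ℚ
  rw [← h1]
  let φ : Fx σ →ₗ[ℚ] (J → ℚ) := (LinearMap.funLeft ℚ ℚ p).domRestrict _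
  apply LinearMap.finrank_le_finrank_of_injective (f := φ)
  rw [← LinearMap.ker_eq_bot, LinearMap.ker_eq_bot']
  intro f hf
  apply Subtype.ext
  exact h f.1 f.2 fun j => congrFun hf j

omit [DecidableEq X] in
theorem card_le_of {J : Type} [Fintype J] (φ : (X → ℚ) →ₗ[ℚ] (J → ℚ))
    (h : ∀ f, φ f = 0 → f = 0) : Fintype.card X ≤ Fintype.card J := by
  have h1 : Module.finrank ℚ (J → ℚ) = Fintype.card J := Module.finrank_fintype_fun_eq_card ℚ
  have h2 : Module.finrank ℚ (X → ℚ) = Fintype.card X := Module.finrank_fintype_fun_eq_card ℚ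
  rw [← h1, ← h2]
  apply LinearMap.finrank_le_finrank_of_injective (f := φ)
  rw [← LinearMap.ker_eq_bot, LinearMap.ker_eq_bot']
  exact h

end lin

end Pool.Agent.Y641.RS
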